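import Pool.Agent.Helper58.QD.StE

/-!
# Project QD (MP_087a81_gt), module KEB: the trace estimate at one scale
-/

set_option autoImplicit false

namespace Pool.Agent.Helper47.QD

open Helper62.LH Helper62.DSH Helper58.QD
open MeasureTheory Set Filter Topology
open scoped ContDiff ENNReal

private theorem cont_q2' {n j : ℕ} (u : E n → Tn n j) (hu : Continuous u) :
    Continuous (fun x => q2 (u x)) := by
  unfold q2 ipt
  refine Continuous.div_const (continuous_finsetSum _ fun I _ => ?_) _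
  have h1 : Continuous (fun x => u x I) := (continuous_apply I).comp hu
  exact h1.mul h1

private theorem al_comb {n j M : ℕ} (c : Fin M → ℝ) (u : Fin M → E n → Tn n j) (hu : ∀ i, Al (u i)) :
    Al (fun x => ∑ i, c i • u i x) := by
  intro x I σ
  simp only [Finset.sum_apply, Pi.smul_apply, smul_eq_mul, Finset.mul_sum]
  refine Finset.sum_congr rfl fun i _ => ?_
  rw [hu i x I σ]
  ring

private theorem sum4 {M M' : ℕ} (T : Fin M' → Fin M' → Fin M → Fin M → ℝ) :
    ∑ k, ∑ l, ∑ a, ∑ b, T a b k l = ∑ a, ∑ b, ∑ k, ∑ l, T a b k l := by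
  have h1 : ∀ k, ∑ l, ∑ a, ∑ b, T a b k l = ∑ a, ∑ b, ∑ l, T a b k l := by
    intro k
    rw [Finset.sum_comm]
    refine Finset.sum_congr rfl fun a _ => ?_
    rw [Finset.sum_comm]
  rw [Finset.sum_congr rfl fun k _ => h1 k, Finset.sum_comm]
  refine Finset.sum_congr rfl fun a _ => ?_
  rw [Finset.sum_comm]

private theorem qf_comb {M M' : ℕ} (S : Fin M → Fin M → ℝ) (e : Fin M' → Fin M → ℝ) (x : Fin M' → ℝ) :
    qf S (fun k => ∑ a, x a * e a k) =
      ∑ a, ∑ b, x a * x b * (∑ k, ∑ l, e a k * S k l * e b l) := by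
  unfold qf
  have h1 : ∀ k l, (∑ a, x a * e a k) * S k l * (∑ b, x b * e b l) =
      ∑ a, ∑ b, x a * x b * (e a k * S k l * e b l) := by
    intro k l
    rw [Finset.sum_mul, Finset.sum_mul]
    refine Finset.sum_congr rfl fun a _ => ?_
    rw [Finset.mul_sum]
    refine Finset.sum_congr rfl fun b _ => ?_
    ring
  rw [Finset.sum_congr rfl fun k _ => Finset.sum_congr rfl fun l _ => h1 k l,
    sum4 fun a b k l => x a * x b * (e a k * S k l * e b l)]
  refine Finset.sum_congr rfl fun a _ => Finset.sum_congr rfl fun b _ => ?_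
  rw [Finset.mul_sum]
  refine Finset.sum_congr rfl fun k _ => ?_
  rw [Finset.mul_sum]

/-- KEB. -/
theorem hKeb (hDlv : StDlv) (hNrm : TNrm) (hDer : TDer) (hGrw : SGrw) (hHfl : SHfl) (hCac : SCac)
    (hRnk : SRnk) (hTrc : STrc) : SKeb := by
  intro n m g Γ F G hg hΓ hF hcpl hsec p b β κ₀ r0 hBus hLvl A hA hW C hC
  obtain ⟨hvs, hv0, -⟩ := hDlv n g Γ hg hΓ
  have hv : Continuous (vol g) := hvs.continuous
  obtain ⟨-, hAn, -⟩ := hGrw n g Γ hg p b β κ₀ r0 hBus hLvl
  obtain ⟨hsm, -, -, -, -, hlin, -, -⟩ := hDer n (m + 1) g Γ F G hF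
  have hq0 : ∀ t : Tn n (m + 1), 0 ≤ q2 t := fun t => ((hNrm n (m + 1)).1 t).1
  obtain ⟨C₃, R₀, hC₃, hR₀, hcac⟩ := hCac n m g Γ F G hg hΓ hF p b β κ₀ r0 hBus hLvl A hA hW
  -- the constant δ₁
  set D : ℝ := 8 * 28 ^ n * (3 * C₃ + 1) * (8 * C ^ 2) with hD
  have h28 : (1 : ℝ) ≤ 28 ^ n := one_le_pow₀ (by norm_num)
  have hC2 : 1 ≤ C ^ 2 := one_le_pow₀ hC
  have hD1 : 1 ≤ D := by
    have h1 : (8 : ℝ) ≤ 8 * 28 ^ n := by linarith
    have h2 : (1 : ℝ) ≤ 3 * C₃ + 1 := by linarith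
    have h3 : (8 : ℝ) ≤ 8 * C ^ 2 := by linarith
    have h4 : (8 : ℝ) * 1 ≤ 8 * 28 ^ n * (3 * C₃ + 1) := mul_le_mul h1 h2 (by norm_num) (by positivity)
    have h5 : (8 : ℝ) * 1 * 8 ≤ D := mul_le_mul h4 h3 (by norm_num) (by positivity)
    linarith
  have hD0 : 0 < D := by linarith
  have hδ0 : 0 < 1 / (16 * D) := by positivity
  have hδ1 : 1 / (16 * D) ≤ 1 / 16 := by
    apply one_div_le_one_div_of_le (by norm_num)
    linarith
  set δ₁ : ℝ := 1 / (16 * D) with hδ
  have hδD : D * δ₁ ^ 2 ≤ 1 := by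
    have h1 : D * δ₁ = 1 / 16 := by
      rw [hδ]
      field_simp
    have h2 : D * δ₁ ^ 2 = (D * δ₁) * δ₁ := by ring
    rw [h2, h1]
    linarith
  obtain ⟨N, R₀', hR₀', hrnk⟩ := hRnk n (m + 1) g Γ F G hg hΓ hF hcpl hsec p b β κ₀ r0 hBus hLvl δ₁ hδ0 hδ1
  obtain ⟨M0, hM0⟩ := exists_nat_gt (8 / 3 * C ^ 2 * (N + 1))
  have hM0' : 1 ≤ M0 := by
    have h1 : (0 : ℝ) < M0 := lt_trans (by positivity) hM0
    exact_mod_cast h1
  refine ⟨M0, max R₀ R₀', hM0', hR₀.trans (le_max_left _ _), ?_⟩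
  intro M hM R hR P hP SA SH QA QH hΛ e he
  have hRa : R₀ ≤ R := (le_max_left _ _).trans hR
  have hRb : R₀' ≤ R := (le_max_right _ _).trans hR
  have hR1 : 1 ≤ R := hR₀.trans hRa
  have hRpos : 0 < R := by linarith
  have hMpos : (0 : ℝ) < M := by
    have : 1 ≤ M := hM0'.trans hM
    exact_mod_cast this
  by_contra hcon
  push Not at hcon
  set κ₁ : ℝ := min (1 / (2 * M ^ 2)) (1 / R ^ 2) with hκ₁
  have hκpos : 0 < κ₁ := lt_min (by positivity) (by positivity)
  have hκa : κ₁ ≤ 1 / (2 * M ^ 2) := min_le_left _ _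
  have hκb : κ₁ ≤ 1 / R ^ 2 := min_le_right _ _
  -- inclusions
  have hsub1 : An β R (16 * R) ⊆ An β (R / 4) (64 * R) := fun x hx => ⟨by linarith [hx.1], by linarith [hx.2]⟩
  have hsub2 : An β R (16 * R) ⊆ An β (R / 2) (32 * R) := fun x hx => ⟨by linarith [hx.1], by linarith [hx.2]⟩
  have hint : ∀ (s t : ℝ) (f : E n → ℝ), Continuous f → IntegrableOn (fun x => f x * vol g x) (An β s t) :=
    fun s t f hf => (hf.mul hv).continuousOn.integrableOn_compact (hAn s t)
  have hmono : ∀ (s t s' t' : ℝ) (f : E n → ℝ), Continuous f → (∀ x, 0 ≤ f x) → An β s t ⊆ An β s' t' →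
      ∫ x in An β s t, f x * vol g x ≤ ∫ x in An β s' t', f x * vol g x := by
    intro s t s' t' f hf hf0 hst
    exact setIntegral_mono_set (hint s' t' f hf)
      (Eventually.of_forall fun x => mul_nonneg (hf0 x) (hv0 x).le) (LE.le.eventuallyLE hst)
  have heH : ∀ a, qf SH (e a) = 1 := by
    intro a
    have := he a a
    rw [if_pos rfl] at this
    exact this
  -- the forms `u a`, `v a`
  have hex : ∀ a : Fin M, ∃ u v : E n → Tn n (m + 1), Prm F G (fun x => ∑ k, e a k • P k x) u ∧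
      ContDiff ℝ ∞ v ∧ ∫ x in An β (R / 2) (32 * R), q2 (u x - v x) * vol g x ≤ κ₁ ∧
      ∫ x in An β (R / 2) (32 * R), NF F G v x * vol g x ≤ (3 * C₃ + 1) / R ^ 2 := by
    intro a
    obtain ⟨hPa, hPi⟩ := hHfl n (m + 1) g Γ F G hg hΓ hF M P hP (e a)
    obtain ⟨u0, hu0, hu0i⟩ := QH.app (e a) 1 one_pos
    rw [heH a] at hu0i
    obtain ⟨u, v, hu, hvs', -, -, h1, h2⟩ := hcac R hRa _ hPa u0 hu0 κ₁ hκpos
    refine ⟨u, v, hu, hvs', h1, h2.trans ?_⟩
    have h3 : ∫ x, q2 (∑ k, e a k • P k x) * vol g x ≤ 1 / R ^ 2 := by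
      refine hPi.trans ?_
      have h4 := hΛ (e a)
      rw [heH a] at h4
      rw [le_div_iff₀ (by positivity)]
      calc (∑ i, e a i ^ 2) * (∑ i, ∫ x, q2 (P i x) * vol g x) * R ^ 2 =
          (∑ i, ∫ x, q2 (P i x) * vol g x) * R ^ 2 * ∑ i, e a i ^ 2 := by ring
        _ ≤ 1 := h4
    have h5 : C₃ / R ^ 2 * (∫ x in An β (R / 4) (64 * R), q2 (u0 x) * vol g x) ≤ C₃ / R ^ 2 * (1 + 1) :=
      mul_le_mul_of_nonneg_left hu0i (by positivity)
    have h6 : C₃ * (∫ x, q2 (∑ k, e a k • P k x) * vol g x) ≤ C₃ * (1 / R ^ 2) :=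
      mul_le_mul_of_nonneg_left h3 hC₃.le
    have h7 : (3 * C₃ + 1) / R ^ 2 = C₃ / R ^ 2 * (1 + 1) + C₃ * (1 / R ^ 2) + 1 / R ^ 2 := by ring
    rw [h7]
    linarith
  choose u v hu hvsm hdiff hNF using hex
  -- the matrix B
  set B : Fin M → Fin M → ℝ := fun a b => ∑ k, ∑ l, e a k * SA k l * e b l with hB
  have hBsy : Sy B := by
    intro a b
    simp only [hB]
    rw [Finset.sum_comm]
    refine Finset.sum_congr rfl fun k _ => Finset.sum_congr rfl fun l _ => ?_
    rw [QA.sym l k]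
    ring
  have hBqf : ∀ x, qf B x = qf SA (fun k => ∑ a, x a * e a k) := by
    intro x
    rw [qf_comb]
    unfold qf
    refine Finset.sum_congr rfl fun a _ => Finset.sum_congr rfl fun b _ => ?_
    simp only [hB]
    ring
  have hAH : ∀ c, qf SA c ≤ qf SH c := by
    intro c
    apply le_of_forall_pos_le_add
    intro κ hκ
    obtain ⟨w, hw, hwi⟩ := QH.app c κ hκ
    refine ((QA.low c w hw).trans (hmono _ _ _ _ (fun x => q2 (w x)) (cont_q2' w hw.1.continuous)
      (fun x => hq0 _) hsub1)).trans hwi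
  have hBle : ∀ x, qf B x ≤ ∑ i, x i ^ 2 := by
    intro x
    rw [hBqf x]
    refine (hAH _).trans (le_of_eq ?_)
    rw [qf_comb]
    refine Finset.sum_congr rfl fun a _ => ?_
    have h1 : ∀ b, x a * x b * (∑ k, ∑ l, e a k * SH k l * e b l) = if a = b then x a * x b else 0 := by
      intro b
      rw [he a b]
      split_ifs <;> ring
    rw [Finset.sum_congr rfl fun b _ => h1 b, Finset.sum_ite_eq Finset.univ a (fun b => x a * x b),
      if_pos (Finset.mem_univ a), sq]
  obtain ⟨L, hL⟩ := hrnk R hRb M v hvsm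
  obtain ⟨M', f, hM', hf, hLf, htr⟩ := hTrc M N B hBsy hBle L
  have hBtr : ∑ i, B i i = ∑ a, qf SA (e a) := rfl
  have hrk := hL M' f hf hLf
  -- estimate of `qf B (f b)`
  have hvq : ∀ b, Continuous (fun x => q2 (∑ i, f b i • v i x)) := fun b =>
    cont_q2' (fun x => ∑ i, f b i • v i x)
      (continuous_finsetSum _ fun i _ => (hvsm i).continuous.const_smul (f b i))
  have hdq : ∀ i, Continuous (fun x => q2 (u i x - v i x)) := fun i =>
    cont_q2' (fun x => u i x - v i x) ((hu i).1.continuous.sub (hvsm i).continuous)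
  have hdq' : ∀ b, Continuous (fun x => q2 (∑ i, f b i • (u i x - v i x))) := fun b =>
    cont_q2' (fun x => ∑ i, f b i • (u i x - v i x))
      (continuous_finsetSum _ fun i _ => ((hu i).1.continuous.sub (hvsm i).continuous).const_smul (f b i))
  have hb : ∀ b, qf B (f b) ≤ 2 * (∫ x in An β R (16 * R), q2 (∑ i, f b i • v i x) * vol g x) +
      2 * (M * κ₁) := by
    intro b
    rw [hBqf (f b)]
    have hw : Prm F G (fun x => ∑ k, (∑ a, f b a * e a k) • P k x) (fun x => ∑ a, f b a • u a x) := by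
      refine ⟨ContDiff.sum fun a _ => (hu a).1.const_smul (f b a), al_comb _ _ fun a => (hu a).2.1, fun x => ?_⟩
      rw [(hlin M (f b) u (fun a => (hu a).1) x).2]
      have h1 : ∀ a, f b a • dF F G (u a) x = ∑ k, (f b a * e a k) • P k x := by
        intro a
        rw [(hu a).2.2 x, Finset.smul_sum]
        refine Finset.sum_congr rfl fun k _ => ?_
        rw [smul_smul]
      rw [Finset.sum_congr rfl fun a _ => h1 a, Finset.sum_comm]
      refine Finset.sum_congr rfl fun k _ => ?_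
      rw [Finset.sum_smul]
    refine (QA.low _ _ hw).trans ?_
    have h2 : ∀ x, q2 (∑ a, f b a • u a x) ≤
        2 * q2 (∑ i, f b i • v i x) + 2 * q2 (∑ i, f b i • (u i x - v i x)) := by
      intro x
      have h3 : ∑ a, f b a • u a x = ∑ i, f b i • v i x + ∑ i, f b i • (u i x - v i x) := by
        rw [← Finset.sum_add_distrib]
        refine Finset.sum_congr rfl fun i _ => ?_
        rw [← smul_add]
        congr 1
        abel
      rw [h3]
      have h4 := (hNrm n (m + 1)).2.2.2.1 (∑ i, f b i • v i x) (∑ i, f b i • (u i x - v i x)) 1 one_pos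
      norm_num at h4
      exact h4
    have huq : Continuous (fun x => q2 (∑ a, f b a • u a x)) :=
      cont_q2' (fun x => ∑ a, f b a • u a x) hw.1.continuous
    have h5 : ∫ x in An β R (16 * R), q2 (∑ a, f b a • u a x) * vol g x ≤
        ∫ x in An β R (16 * R), (2 * (q2 (∑ i, f b i • v i x) * vol g x) +
          2 * (q2 (∑ i, f b i • (u i x - v i x)) * vol g x)) := by
      refine setIntegral_mono (hint _ _ _ huq)
        (((hint _ _ _ (hvq b)).const_mul 2).add ((hint _ _ _ (hdq' b)).const_mul 2)) fun x => ?_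
      have := mul_le_mul_of_nonneg_right (h2 x) (hv0 x).le
      linarith
    refine h5.trans ?_
    rw [integral_add ((hint _ _ _ (hvq b)).const_mul 2) ((hint _ _ _ (hdq' b)).const_mul 2),
      integral_const_mul, integral_const_mul]
    have h6 : ∫ x in An β R (16 * R), q2 (∑ i, f b i • (u i x - v i x)) * vol g x ≤ M * κ₁ := by
      refine (hmono _ _ _ _ (fun x => q2 (∑ i, f b i • (u i x - v i x))) (hdq' b) (fun x => hq0 _) hsub2).trans ?_
      have h7 : ∀ x, q2 (∑ i, f b i • (u i x - v i x)) * vol g x ≤ ∑ i, q2 (u i x - v i x) * vol g x := by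
        intro x
        have h8 := (hNrm n (m + 1)).2.2.2.2.1 M (f b) (fun i => u i x - v i x)
        have h9 : ∑ i, f b i ^ 2 = 1 := by
          have := hf b b
          rw [if_pos rfl] at this
          rw [← this]
          exact Finset.sum_congr rfl fun i _ => sq _
        rw [h9, one_mul] at h8
        rw [← Finset.sum_mul]
        exact mul_le_mul_of_nonneg_right h8 (hv0 x).le
      refine (setIntegral_mono (hint _ _ _ (hdq' b)) (integrable_finsetSum _ fun i _ => hint _ _ _ (hdq i))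
        h7).trans ?_
      rw [integral_finsetSum _ fun i _ => hint _ _ _ (hdq i)]
      refine (Finset.sum_le_sum fun i _ => hdiff i).trans (le_of_eq ?_)
      rw [Finset.sum_const, Finset.card_univ, Fintype.card_fin, nsmul_eq_mul]
    linarith
  have hNFc : ∀ i, Continuous (NF F G (v i)) := by
    intro i
    have : NF F G (v i) = fun x => ∑ a, q2 (cv F G (v i) x a) := rfl
    rw [this]
    exact continuous_finsetSum _ fun a _ => cont_q2' _ ((hsm (v i) (hvsm i)).1 a).continuous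
  have hNFs : ∫ x in An β (R / 2) (32 * R), (∑ i, NF F G (v i) x) * vol g x ≤
      M * ((3 * C₃ + 1) / R ^ 2) := by
    have h1 : ∫ x in An β (R / 2) (32 * R), (∑ i, NF F G (v i) x) * vol g x =
        ∑ i, ∫ x in An β (R / 2) (32 * R), NF F G (v i) x * vol g x := by
      rw [← integral_finsetSum _ fun i _ => hint _ _ _ (hNFc i)]
      refine integral_congr_ae (Eventually.of_forall fun x => ?_)
      simp only [Finset.sum_mul]
    rw [h1]
    refine (Finset.sum_le_sum fun i _ => hNF i).trans (le_of_eq ?_)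
    rw [Finset.sum_const, Finset.card_univ, Fintype.card_fin, nsmul_eq_mul]
  have hsum : ∑ b, qf B (f b) ≤ M / (8 * C ^ 2) + 1 := by
    have h1 : ∑ b, qf B (f b) ≤ 2 * (∑ b, ∫ x in An β R (16 * R), q2 (∑ i, f b i • v i x) * vol g x) +
        M' * (2 * (M * κ₁)) := by
      refine (Finset.sum_le_sum fun b _ => hb b).trans (le_of_eq ?_)
      rw [Finset.sum_add_distrib, ← Finset.mul_sum, Finset.sum_const, Finset.card_univ, Fintype.card_fin,
        nsmul_eq_mul]
    have h2 : (M' : ℝ) * (2 * (M * κ₁)) ≤ 1 := by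
      have h3 : (M' : ℝ) ≤ M := by exact_mod_cast hM'
      calc (M' : ℝ) * (2 * (M * κ₁)) ≤ M * (2 * (M * (1 / (2 * M ^ 2)))) := by gcongr
        _ = 1 := by field_simp
    have h3 : 4 * 28 ^ n * δ₁ ^ 2 * R ^ 2 *
        (∫ x in An β (R / 2) (32 * R), (∑ i, NF F G (v i) x) * vol g x) ≤
        4 * 28 ^ n * δ₁ ^ 2 * R ^ 2 * (M * ((3 * C₃ + 1) / R ^ 2)) :=
      mul_le_mul_of_nonneg_left hNFs (by positivity)
    have h4 : 2 * (4 * 28 ^ n * δ₁ ^ 2 * R ^ 2 * (M * ((3 * C₃ + 1) / R ^ 2))) =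
        M / (8 * C ^ 2) * (D * δ₁ ^ 2) := by
      rw [hD]
      field_simp
      ring
    have h5 : M / (8 * C ^ 2) * (D * δ₁ ^ 2) ≤ M / (8 * C ^ 2) := by
      have h6 : 0 ≤ M / (8 * C ^ 2) := by positivity
      calc M / (8 * C ^ 2) * (D * δ₁ ^ 2) ≤ M / (8 * C ^ 2) * 1 := mul_le_mul_of_nonneg_left hδD h6
        _ = M / (8 * C ^ 2) := mul_one _
    linarith
  have hfin : (M : ℝ) / (2 * C ^ 2) - N ≤ M / (8 * C ^ 2) + 1 := by
    rw [hBtr] at htr
    linarith
  have hM1 : (M0 : ℝ) ≤ M := by exact_mod_cast hM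
  have hCpos : 0 < C ^ 2 := by linarith
  have h1 : (M : ℝ) / (2 * C ^ 2) = 4 * (M / (8 * C ^ 2)) := by
    field_simp
    ring
  have h2 : 3 * (M / (8 * C ^ 2)) ≤ N + 1 := by linarith
  have h3 : (M : ℝ) ≤ 8 / 3 * C ^ 2 * (N + 1) := by
    have h4 : (M : ℝ) = 8 / 3 * C ^ 2 * (3 * (M / (8 * C ^ 2))) := by
      field_simp
    rw [h4]
    exact mul_le_mul_of_nonneg_left h2 (by positivity)
  linarith

end Pool.Agent.Helper47.QD
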