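import Pool.Agent.Helper58.QD.StF
import Pool.Agent.Helper62.DSH.Fin

/-!
# Project QD (MP_087a81_gt), module PUC: extension of a primitive from a collar, component families
-/

set_option autoImplicit false

namespace Pool.Agent.Helper47.QD

open Helper62.LH Helper62.DSH Helper58.QD
open MeasureTheory Set Filter Topology
open scoped ContDiff ENNReal

/-- PUC. -/
theorem hPuc (hCfr : StCfr) (hFmk : TFmk) (hBrc : TBrc) (hNna : SNna) (hPul : SPul) : SPuc := by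
  intro n j
  obtain ⟨C0, hC0, hpul⟩ := hPul n j
  refine ⟨2 * C0 ^ 2, by positivity, ?_⟩
  intro g Γ F G hg hΓ hF b T c ε hb hK hT hc hε hεc hHs hgs P u hu U W hU hW h1 h2
  obtain ⟨hus, hua, hud⟩ := hu
  obtain ⟨φ, hφ, hcp⟩ := hFmk n j g Γ F G hg hF u hus hua
  have hcp' : cp F φ = u := funext hcp
  obtain ⟨-, -, hμ, hdφ⟩ := hBrc n j g Γ F G hg hΓ hF φ hφ
  have hμP : ∀ x, cp F (fun y => extDeriv φ y) x = P x := by
    intro x
    rw [← hdφ x, hcp', hud x]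
  have hnn : ∀ (k : ℕ) (α : E n → Fk n k) (x : E n), nn g x (α x) = √(q2 (cp F α x)) := by
    intro k α x
    unfold nn
    rw [nsq_cp hCfr hF α x]
  obtain ⟨φ', hφ', hdφ', heq, hbd⟩ := hpul g Γ hg hΓ b T c ε hb hK hT hc hε hεc hHs hgs
    (fun x => extDeriv φ x) φ hμ hφ (fun _ => rfl) (√U) (√W) (Real.sqrt_nonneg _) (Real.sqrt_nonneg _)
    (fun x hx1 hx2 => by
      rw [hnn j φ x, hcp x]
      exact Real.sqrt_le_sqrt (h1 x hx1 hx2))
    (fun x hx1 hx2 => by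
      rw [hnn (j + 1) (fun y => extDeriv φ y) x, hμP x]
      exact Real.sqrt_le_sqrt (h2 x hx1 hx2))
  obtain ⟨hs', ha', -, hd'⟩ := hBrc n j g Γ F G hg hΓ hF φ' hφ'
  refine ⟨cp F φ', ⟨hs', ha', fun x => ?_⟩, fun x hx => ?_, fun x hx1 hx2 => ?_⟩
  · have he : (fun y => extDeriv φ' y) = fun y => extDeriv φ y := funext hdφ'
    rw [hd' x, he, hμP x]
  · rw [← hcp x]
    unfold cp
    rw [heq x hx]
  · have h3 := hbd x hx1 hx2
    obtain ⟨-, h4, h5⟩ := (hNna n j g hg x).1 (φ' x)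
    have h6 : q2 (cp F φ' x) = nn g x (φ' x) ^ 2 := by
      rw [h4, nsq_cp hCfr hF φ' x]
    rw [h6]
    have h7 : nn g x (φ' x) ^ 2 ≤ (C0 * (√U + T / c * √W)) ^ 2 := pow_le_pow_left₀ h5 h3 2
    have h8 : √U ^ 2 = U := Real.sq_sqrt hU
    have h9 : √W ^ 2 = W := Real.sq_sqrt hW
    have h10 : (C0 * (√U + T / c * √W)) ^ 2 ≤ C0 ^ 2 * (2 * (√U ^ 2 + (T / c) ^ 2 * √W ^ 2)) := by
      rw [mul_pow]
      refine mul_le_mul_of_nonneg_left ?_ (sq_nonneg C0)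
      nlinarith [sq_nonneg (√U - T / c * √W)]
    rw [h8, h9] at h10
    calc nn g x (φ' x) ^ 2 ≤ C0 ^ 2 * (2 * (U + (T / c) ^ 2 * W)) := h7.trans h10
      _ = 2 * C0 ^ 2 * (U + (T / c) ^ 2 * W) := by ring

end Pool.Agent.Helper47.QD
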