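import Pool.Agent.Helper58.QD.StG

/-!
# Project QD (MP_087a81_gt), module RKB: the rank argument on a ball
-/

set_option autoImplicit false

namespace Pool.Agent.Helper47.QD

open Helper62.LH Helper62.DSH Helper58.QD
open MeasureTheory Set Filter Topology
open scoped ContDiff ENNReal

/-- a good point -/
private theorem exists_good_point {A : Type*} [MeasurableSpace A] (μ : Measure A) [SFinite μ]
    (F : ℝ × A × A → ℝ≥0∞) (hF : Measurable F) (D : Set A) (hD0 : μ D ≠ 0) (hD1 : μ D ≠ ⊤)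
    (K : ℝ≥0∞) (hint : ∫⁻ x in D, (∫⁻ y in D, (∫⁻ t in Icc (0 : ℝ) 1, F (t, x, y)) ∂μ) ∂μ
      ≤ K * μ D) :
    ∃ x ∈ D, ∫⁻ y in D, (∫⁻ t in Icc (0 : ℝ) 1, F (t, x, y)) ∂μ ≤ K := by
  have h1 : Measurable (fun q : (A × A) × ℝ => F (q.2, q.1.1, q.1.2)) :=
    hF.comp (measurable_snd.prodMk measurable_fst)
  have h2 : Measurable (fun q : A × A => ∫⁻ t in Icc (0 : ℝ) 1, F (t, q.1, q.2)) :=
    h1.lintegral_prod_right'
  have h3 : Measurable (fun x : A => ∫⁻ y in D, (∫⁻ t in Icc (0 : ℝ) 1, F (t, x, y)) ∂μ) :=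
    h2.lintegral_prod_right'
  obtain ⟨x, hxD, hx⟩ := exists_le_setLAverage hD0 hD1 h3.aemeasurable
  refine ⟨x, hxD, hx.trans ?_⟩
  rw [setLAverage_eq]
  exact ENNReal.div_le_of_le_mul hint

private theorem cont_q2 {n j : ℕ} (u : E n → Tn n j) (hu : Continuous u) :
    Continuous (fun x => q2 (u x)) := by
  unfold q2 ipt
  refine Continuous.div_const (continuous_finsetSum _ fun I _ => ?_) _
  have h1 : Continuous (fun x => u x I) := (continuous_apply I).comp hu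
  exact h1.mul h1

private theorem bessel {M M' : ℕ} (e : Fin M' → Fin M → ℝ)
    (he : ∀ a b, ∑ i, e a i * e b i = if a = b then 1 else 0) (v : Fin M → ℝ) :
    ∑ a, (∑ i, e a i * v i) ^ 2 ≤ ∑ i, v i ^ 2 := by
  set s : Fin M' → ℝ := fun a => ∑ i, e a i * v i with hs
  have h0 : 0 ≤ ∑ i, (v i - ∑ a, s a * e a i) ^ 2 := Finset.sum_nonneg fun i _ => sq_nonneg _
  have h1 : ∑ i, (v i - ∑ a, s a * e a i) ^ 2 =
      ∑ i, v i ^ 2 - 2 * (∑ i, v i * ∑ a, s a * e a i) + ∑ i, (∑ a, s a * e a i) ^ 2 := by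
    rw [Finset.mul_sum, ← Finset.sum_sub_distrib, ← Finset.sum_add_distrib]
    refine Finset.sum_congr rfl fun i _ => ?_
    ring
  have h2 : ∑ i, v i * ∑ a, s a * e a i = ∑ a, s a ^ 2 := by
    have : ∀ i, v i * ∑ a, s a * e a i = ∑ a, s a * (e a i * v i) := by
      intro i
      rw [Finset.mul_sum]
      refine Finset.sum_congr rfl fun a _ => ?_
      ring
    rw [Finset.sum_congr rfl fun i _ => this i, Finset.sum_comm]
    refine Finset.sum_congr rfl fun a _ => ?_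
    rw [← Finset.mul_sum, sq]
  have h3 : ∑ i, (∑ a, s a * e a i) ^ 2 = ∑ a, s a ^ 2 := by
    have : ∀ i, (∑ a, s a * e a i) ^ 2 = ∑ a, ∑ b, s a * s b * (e a i * e b i) := by
      intro i
      rw [sq, Finset.sum_mul_sum]
      refine Finset.sum_congr rfl fun a _ => Finset.sum_congr rfl fun b _ => ?_
      ring
    rw [Finset.sum_congr rfl fun i _ => this i, Finset.sum_comm]
    refine Finset.sum_congr rfl fun a _ => ?_
    rw [Finset.sum_comm]
    have h4 : ∀ b, ∑ i, s a * s b * (e a i * e b i) = if a = b then s a * s b else 0 := by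
      intro b
      rw [← Finset.mul_sum, he a b]
      split_ifs <;> ring
    rw [Finset.sum_congr rfl fun b _ => h4 b, Finset.sum_ite_eq Finset.univ a (fun b => s a * s b),
      if_pos (Finset.mem_univ a), sq]
  rw [h1, h2, h3] at h0
  linarith

private theorem bessel_q2 (hNrm : TNrm) {n j M M' : ℕ} (e : Fin M' → Fin M → ℝ)
    (he : ∀ a b, ∑ i, e a i * e b i = if a = b then 1 else 0) (t : Fin M → Tn n j) :
    ∑ a, q2 (∑ i, e a i • t i) ≤ ∑ i, q2 (t i) := by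
  have hq : ∀ t : Tn n j, q2 t = (∑ I, t I ^ 2) / j.factorial := fun t => ((hNrm n j).1 t).2.2
  rw [Finset.sum_congr rfl fun a _ => hq _, Finset.sum_congr rfl fun i _ => hq (t i),
    ← Finset.sum_div, ← Finset.sum_div]
  refine div_le_div_of_nonneg_right ?_ (Nat.cast_nonneg _)
  rw [Finset.sum_comm, Finset.sum_comm (f := fun i I => t i I ^ 2)]
  refine Finset.sum_le_sum fun I _ => ?_
  have h1 : ∀ a, (∑ i, e a i • t i) I = ∑ i, e a i * t i I := by
    intro a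
    rw [Finset.sum_apply]
    rfl
  rw [Finset.sum_congr rfl fun a _ => by rw [h1 a]]
  exact bessel e he fun i => t i I

/-- Continuous functions are integrable on balls. -/
private theorem integrableOn_ball (hHr : StHr) {n : ℕ} {g : E n → Bl n} (hg : IsMet g) (hcpl : Cpl g)
    (z : E n) (r : ℝ) (f : E n → ℝ) (hf : Continuous f) : IntegrableOn f (Ba g z r) := by
  refine IntegrableOn.mono_set (hf.continuousOn.integrableOn_compact (hHr n g hg hcpl z r)) ?_
  intro y hy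
  have hy' : dg g z y < r := hy
  exact hy'.le

private theorem lint_eq {n : ℕ} {g : E n → Bl n} (hv : Continuous (vol g))
    {S : Set (E n)} (hS : MeasurableSet S) {f : E n → ℝ} (hf : Continuous f) (hf0 : ∀ x, 0 ≤ f x) :
    ∫⁻ y in S, ENNReal.ofReal (f y) ∂(mg g) = ∫⁻ y in S, ENNReal.ofReal (f y * vol g y) := by
  unfold mg
  rw [setLIntegral_withDensity_eq_setLIntegral_mul volume hv.measurable.ennreal_ofReal
    hf.measurable.ennreal_ofReal hS]
  refine lintegral_congr fun y => ?_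
  rw [Pi.mul_apply, mul_comm, ENNReal.ofReal_mul (hf0 y)]

private theorem int_eq {n : ℕ} {g : E n → Bl n} (hv : Continuous (vol g)) (hv0 : ∀ x, 0 < vol g x)
    {S : Set (E n)} (hS : MeasurableSet S) {f : E n → ℝ} (hf : Continuous f) (hf0 : ∀ x, 0 ≤ f x) :
    ∫ y in S, f y * vol g y = (∫⁻ y in S, ENNReal.ofReal (f y) ∂(mg g)).toReal := by
  rw [lint_eq hv hS hf hf0]
  exact integral_eq_lintegral_of_nonneg_ae (Eventually.of_forall fun y => mul_nonneg (hf0 y) (hv0 y).le)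
    (hf.mul hv).aestronglyMeasurable

/-- RKB. -/
theorem hRkb (hMet : StMet) (hHr : StHr) (hUsc : StUsc) (hDlv : StDlv) (hNrm : TNrm) (hDer : TDer)
    (hBal : SBal) (hSgb : SSgb) (hPtb : SPtb) : SRkb := by
  intro n j g Γ F G hg hΓ hF hcpl hsec z ρ hρ M θ hθ
  obtain ⟨-, -, hd0, -, hsymm, htri⟩ := hMet n g hg
  obtain ⟨hvs, hv0, -⟩ := hDlv n g Γ hg hΓ
  have hv : Continuous (vol g) := hvs.continuous
  obtain ⟨hsm, -, -, -, -, hlin, -, -⟩ := hDer n j g Γ F G hF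
  have hq0 : ∀ t : Tn n j, 0 ≤ q2 t := fun t => ((hNrm n j).1 t).1
  have hNFc : ∀ i, Continuous (NF F G (θ i)) := by
    intro i
    have : NF F G (θ i) = fun x => ∑ a, q2 (cv F G (θ i) x a) := rfl
    rw [this]
    exact continuous_finsetSum _ fun a _ => cont_q2 _ ((hsm (θ i) (hθ i)).1 a).continuous
  set h : E n → ℝ := fun y => ∑ i, NF F G (θ i) y with hh
  have hhc : Continuous h := continuous_finsetSum _ fun i _ => hNFc i
  have hh0 : ∀ y, 0 ≤ h y := fun y => Finset.sum_nonneg fun i _ => Finset.sum_nonneg fun a _ => hq0 _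
  obtain ⟨hmeas, -⟩ := hUsc n g hg hcpl h hhc
  have hsf : SFinite (mg g) := by unfold mg; infer_instance
  obtain ⟨hopen, hfin, hpos, -, -⟩ := hBal n g Γ hg hΓ hcpl z
  have hB0 : mg g (Ba g z ρ) ≠ 0 := by
    intro h0
    have h1 := hpos ρ hρ
    unfold vb at h1
    rw [h0] at h1
    simp at h1
  have hseg : ∫⁻ x in Ba g z ρ, (∫⁻ y in Ba g z ρ, (∫⁻ t in Icc (0 : ℝ) 1, HS g h t x y) ∂(mg g)) ∂(mg g)
      ≤ (2 ^ n * ∫⁻ y in Ba g z (3 * ρ), ENNReal.ofReal (h y) ∂(mg g)) * mg g (Ba g z ρ) := by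
    refine (hSgb n g Γ hg hΓ hcpl hsec h hhc z ρ hρ).trans (le_of_eq ?_)
    ring
  obtain ⟨x, hxD, hx⟩ := exists_good_point (mg g) (fun q => HS g h q.1 q.2.1 q.2.2) hmeas (Ba g z ρ)
    hB0 (hfin ρ) _ hseg
  replace hx : ∫⁻ y in Ba g z ρ, (∫⁻ t in Icc (0 : ℝ) 1, HS g h t x y) ∂(mg g)
      ≤ 2 ^ n * ∫⁻ y in Ba g z (3 * ρ), ENNReal.ofReal (h y) ∂(mg g) := hx
  refine ⟨x, hxD, fun M' e he hex => ?_⟩
  have hζs : ∀ a, ContDiff ℝ ∞ (fun y => ∑ i, e a i • θ i y) := fun a =>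
    ContDiff.sum fun i _ => (hθ i).const_smul (e a i)
  have hN2 : ∀ y, ∑ a, NF F G (fun y => ∑ i, e a i • θ i y) y ≤ h y := by
    intro y
    have e1 : ∀ a, NF F G (fun y => ∑ i, e a i • θ i y) y =
        ∑ b, q2 (∑ i, e a i • cv F G (θ i) y b) := by
      intro a
      have : NF F G (fun y => ∑ i, e a i • θ i y) y =
        ∑ b, q2 (cv F G (fun y => ∑ i, e a i • θ i y) y b) := rfl
      rw [this]
      refine Finset.sum_congr rfl fun b _ => ?_
      rw [(hlin _ (e a) θ hθ y).1 b]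
    have e2 : h y = ∑ b, ∑ i, q2 (cv F G (θ i) y b) := by
      have : h y = ∑ i, ∑ a, q2 (cv F G (θ i) y a) := rfl
      rw [this, Finset.sum_comm]
    rw [Finset.sum_congr rfl fun a _ => e1 a, Finset.sum_comm, e2]
    exact Finset.sum_le_sum fun b _ => bessel_q2 hNrm e he fun i => cv F G (θ i) y b
  have hqc : ∀ a, Continuous (fun y => q2 (∑ i, e a i • θ i y)) := fun a =>
    cont_q2 _ (hζs a).continuous
  have hmB : ∀ r, MeasurableSet (Ba g z r) := fun r => (hopen r).measurableSet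
  have hpt : ∀ y ∈ Ba g z ρ, ENNReal.ofReal (∑ a, q2 (∑ i, e a i • θ i y)) ≤
      ENNReal.ofReal (4 * ρ ^ 2) * ∫⁻ t in Icc (0 : ℝ) 1, HS g h t x y := by
    intro y hy
    refine (hPtb n j g Γ F G hg hΓ hF hcpl M' (fun a y => ∑ i, e a i • θ i y) hζs h hhc hN2 x y
      hex).trans ?_
    refine mul_le_mul' (ENNReal.ofReal_le_ofReal ?_) le_rfl
    have h1 : dg g x y ≤ 2 * ρ := by
      have h2 := htri x z y
      have h3 : dg g z x < ρ := hxD
      have h4 : dg g z y < ρ := hy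
      rw [hsymm x z] at h2
      linarith
    have h2 := pow_le_pow_left₀ (hd0 x y) h1 2
    calc dg g x y ^ 2 ≤ (2 * ρ) ^ 2 := h2
      _ = 4 * ρ ^ 2 := by ring
  have hmain : ∫⁻ y in Ba g z ρ, ENNReal.ofReal (∑ a, q2 (∑ i, e a i • θ i y)) ∂(mg g) ≤
      ENNReal.ofReal (4 * ρ ^ 2 * 2 ^ n) * ∫⁻ y in Ba g z (3 * ρ), ENNReal.ofReal (h y) ∂(mg g) := by
    calc ∫⁻ y in Ba g z ρ, ENNReal.ofReal (∑ a, q2 (∑ i, e a i • θ i y)) ∂(mg g)
        ≤ ∫⁻ y in Ba g z ρ, ENNReal.ofReal (4 * ρ ^ 2) *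
            (∫⁻ t in Icc (0 : ℝ) 1, HS g h t x y) ∂(mg g) := setLIntegral_mono' (hmB ρ) hpt
      _ = ENNReal.ofReal (4 * ρ ^ 2) *
            ∫⁻ y in Ba g z ρ, (∫⁻ t in Icc (0 : ℝ) 1, HS g h t x y) ∂(mg g) :=
          lintegral_const_mul' _ _ ENNReal.ofReal_ne_top
      _ ≤ ENNReal.ofReal (4 * ρ ^ 2) *
            (2 ^ n * ∫⁻ y in Ba g z (3 * ρ), ENNReal.ofReal (h y) ∂(mg g)) := mul_le_mul' le_rfl hx
      _ = ENNReal.ofReal (4 * ρ ^ 2 * 2 ^ n) *
            ∫⁻ y in Ba g z (3 * ρ), ENNReal.ofReal (h y) ∂(mg g) := by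
          have h2 : ENNReal.ofReal (2 ^ n) = 2 ^ n := by
            rw [ENNReal.ofReal_pow (by norm_num)]
            norm_num
          rw [ENNReal.ofReal_mul (p := 4 * ρ ^ 2) (by positivity), h2]
          ring
  have hI : ∀ a, IntegrableOn (fun y => q2 (∑ i, e a i • θ i y) * vol g y) (Ba g z ρ) := fun a =>
    integrableOn_ball hHr hg hcpl z ρ _ ((hqc a).mul hv)
  have hsum : ∑ a, ∫ y in Ba g z ρ, q2 (∑ i, e a i • θ i y) * vol g y =
      ∫ y in Ba g z ρ, (∑ a, q2 (∑ i, e a i • θ i y)) * vol g y := by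
    rw [← integral_finsetSum _ fun a _ => hI a]
    refine integral_congr_ae (Eventually.of_forall fun y => ?_)
    simp only [Finset.sum_mul]
  have hfinh : ∫⁻ y in Ba g z (3 * ρ), ENNReal.ofReal (h y) ∂(mg g) ≠ ⊤ := by
    rw [lint_eq hv (hmB _) hhc hh0]
    exact (integrableOn_ball hHr hg hcpl z (3 * ρ) _ (hhc.mul hv)).lintegral_lt_top.ne
  have e1 := int_eq hv hv0 (hmB ρ) (f := fun y => ∑ a, q2 (∑ i, e a i • θ i y))
    (continuous_finsetSum _ fun a _ => hqc a) (fun y => Finset.sum_nonneg fun a _ => hq0 _)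
  have e2 := int_eq hv hv0 (hmB (3 * ρ)) hhc hh0
  have e3 : ∫ y in Ba g z (3 * ρ), (∑ i, NF F G (θ i) y) * vol g y =
      (∫⁻ y in Ba g z (3 * ρ), ENNReal.ofReal (h y) ∂(mg g)).toReal := e2
  rw [hsum, e1, e3]
  refine (ENNReal.toReal_mono (ENNReal.mul_ne_top ENNReal.ofReal_ne_top hfinh) hmain).trans ?_
  rw [ENNReal.toReal_mul, ENNReal.toReal_ofReal (by positivity)]

end Pool.Agent.Helper47.QD
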