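import Pool.Agent.Helper58.QD.StL

/-!
# Project QD (MP_087a81_gt), module TRC: trace of a form on the kernel of a linear map
-/

set_option autoImplicit false

namespace Pool.Agent.Helper47.QD

open Helper58.QD Module

private theorem proj_apply {M : ℕ} {ι : Type} [Fintype ι] {U : Submodule ℝ (EuclideanSpace ℝ (Fin M))}
    (b : OrthonormalBasis ι ℝ U) (i k : Fin M) :
    (U.starProjection (EuclideanSpace.single i (1 : ℝ))) k =
      ∑ a, (b a : EuclideanSpace ℝ (Fin M)) i * (b a : EuclideanSpace ℝ (Fin M)) k := by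
  rw [b.starProjection_eq_sum_rankOne, ContinuousLinearMap.sum_apply, WithLp.ofLp_sum, Finset.sum_apply]
  refine Finset.sum_congr rfl fun a _ => ?_
  rw [InnerProductSpace.rankOne_apply, EuclideanSpace.inner_single_right]
  simp

private theorem ort {M : ℕ} {ι : Type} [Fintype ι] [DecidableEq ι]
    {U : Submodule ℝ (EuclideanSpace ℝ (Fin M))}
    (b : OrthonormalBasis ι ℝ U) (a c : ι) :
    ∑ i, (b a : EuclideanSpace ℝ (Fin M)) i * (b c : EuclideanSpace ℝ (Fin M)) i =
      if a = c then 1 else 0 := by
  have h := orthonormal_iff_ite.1 b.orthonormal a c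
  rw [Submodule.coe_inner, PiLp.inner_apply] at h
  rw [← h]
  refine Finset.sum_congr rfl fun i _ => ?_
  simp [mul_comm]

theorem hTrc : STrc := by
  intro M N B _ hle L
  let L' : EuclideanSpace ℝ (Fin M) →ₗ[ℝ] (Fin N → ℝ) :=
    L ∘ₗ (WithLp.linearEquiv 2 ℝ (Fin M → ℝ)).toLinearMap
  let K : Submodule ℝ (EuclideanSpace ℝ (Fin M)) := LinearMap.ker L'
  let b := stdOrthonormalBasis ℝ K
  let b' := stdOrthonormalBasis ℝ Kᗮ
  have hdim : finrank ℝ K + finrank ℝ Kᗮ = M := by
    have h := K.finrank_add_finrank_orthogonal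
    rwa [finrank_euclideanSpace, Fintype.card_fin] at h
  have hrank : finrank ℝ Kᗮ ≤ N := by
    have h1 := L'.finrank_range_add_finrank_ker
    rw [finrank_euclideanSpace, Fintype.card_fin] at h1
    have h2 : finrank ℝ (LinearMap.range L') ≤ N := by
      have := Submodule.finrank_le (LinearMap.range L')
      rwa [finrank_fin_fun] at this
    have h3 : finrank ℝ (LinearMap.ker L') = finrank ℝ K := rfl
    omega
  refine ⟨finrank ℝ K, fun a i => (b a : EuclideanSpace ℝ (Fin M)) i, by omega, fun a c => ort b a c,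
    fun a => ?_, ?_⟩
  · have h : L' (b a : EuclideanSpace ℝ (Fin M)) = 0 := (b a).2
    exact h
  · have hδ : ∀ i k : Fin M, (if i = k then (1 : ℝ) else 0) =
        ∑ a, (b a : EuclideanSpace ℝ (Fin M)) i * (b a : EuclideanSpace ℝ (Fin M)) k +
        ∑ a, (b' a : EuclideanSpace ℝ (Fin M)) i * (b' a : EuclideanSpace ℝ (Fin M)) k := by
      intro i k
      rw [← proj_apply b i k, ← proj_apply b' i k, ← PiLp.add_apply,
        K.starProjection_add_starProjection_orthogonal]
      simp [eq_comm]
    have hexp : ∀ f : Fin M → ℝ, qf B f = ∑ i, ∑ k, B i k * (f i * f k) := by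
      intro f
      unfold qf
      refine Finset.sum_congr rfl fun i _ => Finset.sum_congr rfl fun k _ => ?_
      ring
    have hsum : ∀ {ι : Type} [Fintype ι] (F : ι → Fin M → ℝ),
        ∑ a, qf B (F a) = ∑ i, ∑ k, B i k * ∑ a, F a i * F a k := by
      intro ι _ F
      simp only [hexp, Finset.mul_sum]
      rw [Finset.sum_comm]
      refine Finset.sum_congr rfl fun i _ => ?_
      rw [Finset.sum_comm]
    have htr : ∑ i, B i i = ∑ a, qf B (fun i => (b a : EuclideanSpace ℝ (Fin M)) i) +
        ∑ a, qf B (fun i => (b' a : EuclideanSpace ℝ (Fin M)) i) := by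
      rw [hsum (fun a i => (b a : EuclideanSpace ℝ (Fin M)) i),
        hsum (fun a i => (b' a : EuclideanSpace ℝ (Fin M)) i), ← Finset.sum_add_distrib]
      refine Finset.sum_congr rfl fun i _ => ?_
      rw [← Finset.sum_add_distrib]
      have h1 : ∀ k, B i k * ∑ a, (b a : EuclideanSpace ℝ (Fin M)) i * (b a : EuclideanSpace ℝ (Fin M)) k +
          B i k * ∑ a, (b' a : EuclideanSpace ℝ (Fin M)) i * (b' a : EuclideanSpace ℝ (Fin M)) k =
          if i = k then B i k else 0 := by
        intro k
        rw [← mul_add, ← hδ i k]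
        split_ifs <;> simp
      rw [Finset.sum_congr rfl fun k _ => h1 k, Finset.sum_ite_eq Finset.univ i (fun k => B i k),
        if_pos (Finset.mem_univ i)]
    have hb' : ∑ a, qf B (fun i => (b' a : EuclideanSpace ℝ (Fin M)) i) ≤ N := by
      have h1 : ∀ a, qf B (fun i => (b' a : EuclideanSpace ℝ (Fin M)) i) ≤ 1 := by
        intro a
        refine (hle _).trans (le_of_eq ?_)
        have h2 := ort b' a a
        rw [if_pos rfl] at h2
        rw [← h2]
        refine Finset.sum_congr rfl fun i _ => ?_
        rw [sq]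
      refine (Finset.sum_le_sum fun a _ => h1 a).trans ?_
      rw [Finset.sum_const, Finset.card_univ, Fintype.card_fin, nsmul_eq_mul, mul_one]
      exact_mod_cast hrank
    linarith

end Pool.Agent.Helper47.QD
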